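import Mathlib

/-!
Module NEM of project BF (helper95): the composition operator `u ↦ X ∘ u` on `C(unitInterval, E)` is analytic
at constants.
-/

set_option autoImplicit false

open Filter Topology Set

namespace Pool.Agent.D0H3.BF

variable {E : Type*} [NormedAddCommGroup E] [NormedSpace ℝ E]

/-- The pointwise application of a continuous multilinear map to continuous functions. -/
noncomputable def app {n : ℕ} (q : ContinuousMultilinearMap ℝ (fun _ : Fin n => E) E) :
    ContinuousMultilinearMap ℝ (fun _ : Fin n => C(unitInterval, E)) C(unitInterval, E) :=
  MultilinearMap.mkContinuous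
    { toFun := fun h => ⟨fun t => q (fun i => h i t),
        q.cont.comp (continuous_pi fun i => (h i).continuous)⟩
      map_update_add' := by
        intro _ h i x y
        ext t
        have key : ∀ w : C(unitInterval, E), (fun j => Function.update h i w j t) =
            Function.update (fun j => h j t) i (w t) := by
          intro w
          funext j
          by_cases hj : j = i
          · subst hj; simp
          · simp [Function.update_of_ne hj]
        simp only [ContinuousMap.coe_mk, ContinuousMap.coe_add, Pi.add_apply]
        rw [key, key, key]
        simp
      map_update_smul' := by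
        intro _ h i c x
        ext t
        have key : ∀ w : C(unitInterval, E), (fun j => Function.update h i w j t) =
            Function.update (fun j => h j t) i (w t) := by
          intro w
          funext j
          by_cases hj : j = i
          · subst hj; simp
          · simp [Function.update_of_ne hj]
        simp only [ContinuousMap.coe_mk, ContinuousMap.coe_smul, Pi.smul_apply]
        rw [key, key]
        simp }
    ‖q‖ (by
      intro h
      rw [ContinuousMap.norm_le _ (by positivity)]
      intro t
      refine (q.le_opNorm _).trans ?_
      gcongr with i
      exact ContinuousMap.norm_coe_le_norm (h i) t)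

theorem app_apply {n : ℕ} (q : ContinuousMultilinearMap ℝ (fun _ : Fin n => E) E)
    (h : Fin n → C(unitInterval, E)) (t : unitInterval) :
    app q h t = q (fun i => h i t) := rfl

theorem norm_app_le {n : ℕ} (q : ContinuousMultilinearMap ℝ (fun _ : Fin n => E) E) :
    ‖app q‖ ≤ ‖q‖ := by
  unfold app
  exact MultilinearMap.mkContinuous_norm_le _ (norm_nonneg _) _

theorem nem [CompleteSpace E] (X : C(E, E)) (z : E) (h : AnalyticAt ℝ X z) :
    AnalyticAt ℝ (fun u : C(unitInterval, E) => X.comp u) (ContinuousMap.const unitInterval z) := by
  obtain ⟨p, r, hp⟩ := h
  let P : FormalMultilinearSeries ℝ C(unitInterval, E) C(unitInterval, E) := fun n => app (p n)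
  refine ⟨P, r, ?_, hp.r_pos, ?_⟩
  · exact hp.r_le.trans (FormalMultilinearSeries.radius_le_of_le fun {n} => norm_app_le (p n))
  · intro y hy
    have hrP : r ≤ P.radius :=
      hp.r_le.trans (FormalMultilinearSeries.radius_le_of_le fun {n} => norm_app_le (p n))
    have hs : Summable fun n => P n fun _ => y :=
      P.summable (Metric.eball_subset_eball hrP hy)
    obtain ⟨S, hS⟩ := hs
    have : S = X.comp (ContinuousMap.const unitInterval z + y) := by
      ext t
      have h1 : HasSum (fun n => p n fun _ => y t) (S t) := by
        have := hS.map (ContinuousMap.evalCLM ℝ t : C(unitInterval, E) →L[ℝ] E)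
          (ContinuousMap.evalCLM ℝ t : C(unitInterval, E) →L[ℝ] E).continuous
        exact this
      have hyt : y t ∈ Metric.eball (0 : E) r := by
        rw [Metric.mem_eball, edist_zero_right] at hy ⊢
        refine lt_of_le_of_lt ?_ hy
        rw [← ofReal_norm, ← ofReal_norm]
        exact ENNReal.ofReal_le_ofReal (ContinuousMap.norm_coe_le_norm y t)
      have h2 := hp.hasSum hyt
      exact h1.unique h2
    rw [← this]
    exact hS

end Pool.Agent.D0H3.BF
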