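import Pool.Agent.D0H95.BF.Stm7
import Pool.Agent.D0H3.BF.NemCore

/-!
Module NEM of project BF (helper95): `S_NEM`.
-/

set_option autoImplicit false

namespace Pool.Agent.D0H3.BF

theorem t_NEM : Pool.Agent.D0H95.BF.S_NEM := by
  intro E _ _ _ X z h
  exact nem X z h

end Pool.Agent.D0H3.BF
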